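import Mathlib
import Pool.Agent.Helper64.RN.Goals

/-!
Project RN (MP_d01c92_ag), packet CRR: rational normal curves satisfy the cross-ratio equations.
-/

open scoped BigOperators

universe u

namespace Pool.Agent.Helper66.RN.CRR

open Module Pool.Agent.Helper64.IG Pool.Agent.Helper64.RN

/-- the determinant as a Vandermonde product -/
theorem detv {K : Type u} [Field K] {p : ℕ} {E : Type} (t z : E → K) (w : Fin p → E) :
    Matrix.det (fun i j : Fin p => t (w j) * z (w j) ^ (i : ℕ)) =
      (∏ j, t (w j)) * ∏ i : Fin p, ∏ j ∈ Finset.Ioi i, (z (w j) - z (w i)) := by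
  have h1 := Matrix.det_mul_row (fun j : Fin p => t (w j))
    (fun i j : Fin p => z (w j) ^ (i : ℕ))
  have h2 : Matrix.det (fun i j : Fin p => z (w j) ^ (i : ℕ)) =
      ∏ i : Fin p, ∏ j ∈ Finset.Ioi i, (z (w j) - z (w i)) := by
    rw [← Matrix.det_vandermonde (fun j : Fin p => z (w j)), ← Matrix.det_transpose]
    congr 1
  rw [← h2, ← h1]
  rfl

/-- the form on a tuple with the first two entries `a`, `b` -/
theorem two {K : Type u} [Field K] {q : ℕ} {E : Type} (t z : E → K) (s : Fin q → E) (a b : E) :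
    Matrix.det (fun i j : Fin (q + 2) =>
      t ((Fin.cons a (Fin.cons b s : Fin (q + 1) → E) : Fin (q + 2) → E) j) *
      z ((Fin.cons a (Fin.cons b s : Fin (q + 1) → E) : Fin (q + 2) → E) j) ^ (i : ℕ)) =
      ((∏ l, t (s l)) * ∏ i : Fin q, ∏ j ∈ Finset.Ioi i, (z (s j) - z (s i))) *
        (t a * ∏ l, (z (s l) - z a)) * (t b * ∏ l, (z (s l) - z b)) * (z b - z a) := by
  rw [detv]
  simp only [Fin.prod_univ_succ, Fin.cons_zero, Fin.cons_succ, Fin.prod_Ioi_zero,
    Fin.prod_Ioi_succ]
  ring

/-- a permutation with given values at `0` and `1` -/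
theorem experm {q : ℕ} (i j : Fin (q + 2)) (hij : i ≠ j) :
    ∃ π : Equiv.Perm (Fin (q + 2)), π 0 = i ∧ π 1 = j := by
  refine ⟨Equiv.swap ((Equiv.swap 0 i) 1) j * Equiv.swap 0 i, ?_, ?_⟩
  · rw [Equiv.Perm.mul_apply, Equiv.swap_apply_left]
    apply Equiv.swap_apply_of_ne_of_ne
    · intro h
      have h2 : (Equiv.swap 0 i) 0 = (Equiv.swap 0 i) 1 := by rw [Equiv.swap_apply_left]; exact h
      have h3 := (Equiv.swap 0 i).injective h2
      exact absurd h3 (by simp)
    · exact hij
  · rw [Equiv.Perm.mul_apply, Equiv.swap_apply_left]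

theorem claim {K : Type u} [Field K] {p : ℕ} {E : Type} (ω : (Fin p → E) → K) (c : K) (t z : E → K)
    (h : ∀ a : Fin p → E, ω a = c * Matrix.det (fun i j : Fin p => t (a j) * z (a j) ^ (i : ℕ)))
    (i j : Fin p) (hij : i ≠ j) (u : Fin p → E) :
    ∃ (C : K) (g : E → K), ∀ a b, ω (up u i j a b) = C * g a * g b * (z b - z a) := by
  obtain ⟨q, rfl⟩ : ∃ q, p = q + 2 := by
    have hi := i.2
    have hj := j.2
    have : (i : ℕ) ≠ j := fun h => hij (Fin.ext h)
    exact ⟨p - 2, by omega⟩
  obtain ⟨π, h0, h1⟩ := experm i j hij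
  set s : Fin q → E := fun l => u (π l.succ.succ) with hs
  refine ⟨c * ((Equiv.Perm.sign π : ℤ) : K) *
    ((∏ l, t (s l)) * ∏ i : Fin q, ∏ j ∈ Finset.Ioi i, (z (s j) - z (s i))),
    fun a => t a * ∏ l, (z (s l) - z a), fun a b => ?_⟩
  have hw : (up u i j a b) ∘ π = (Fin.cons a (Fin.cons b s : Fin (q + 1) → E) : Fin (q + 2) → E) := by
    funext k
    refine Fin.cases ?_ (fun k => ?_) k
    · simp only [Function.comp_apply, h0, Fin.cons_zero, up]
      rw [Function.update_of_ne hij, Function.update_self]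
    · refine Fin.cases ?_ (fun l => ?_) k
      · have h2 : (up u i j a b ∘ π) (Fin.succ (0 : Fin (q + 1))) = b := by
          have : (Fin.succ (0 : Fin (q + 1))) = 1 := rfl
          simp only [Function.comp_apply, up, this, h1]
          rw [Function.update_self]
        rw [h2, Fin.cons_succ, Fin.cons_zero]
      · simp only [Function.comp_apply, Fin.cons_succ, up, hs]
        have n1 : π l.succ.succ ≠ j := by
          rw [← h1]
          intro h
          have := π.injective h
          exact absurd this (by simp [Fin.ext_iff])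
        have n0 : π l.succ.succ ≠ i := by
          rw [← h0]
          intro h
          have := π.injective h
          exact absurd this (by simp [Fin.ext_iff])
        rw [Function.update_of_ne n1, Function.update_of_ne n0]
  have hdet := two t z s a b
  rw [← hw] at hdet
  have hperm := Matrix.det_permute' π
    (fun i' j' : Fin (q + 2) => t (up u i j a b j') * z (up u i j a b j') ^ (i' : ℕ))
  have e1 : Matrix.submatrix (fun i' j' : Fin (q + 2) =>
      t (up u i j a b j') * z (up u i j a b j') ^ (i' : ℕ)) id π =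
      (fun i' j' : Fin (q + 2) => t ((up u i j a b ∘ π) j') * z ((up u i j a b ∘ π) j') ^ (i' : ℕ)) := rfl
  rw [e1, hdet] at hperm
  have hss : (((Equiv.Perm.sign π : ℤ) : K)) * ((Equiv.Perm.sign π : ℤ) : K) = 1 := by
    rcases Int.units_eq_one_or (Equiv.Perm.sign π) with h | h <;> rw [h] <;> simp
  rw [h (up u i j a b)]
  have e2 : Matrix.det (fun i' j' : Fin (q + 2) =>
      t (up u i j a b j') * z (up u i j a b j') ^ (i' : ℕ)) =
      ((Equiv.Perm.sign π : ℤ) : K) * (((Equiv.Perm.sign π : ℤ) : K) * Matrix.det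
      (fun i' j' : Fin (q + 2) => t (up u i j a b j') * z (up u i j a b j') ^ (i' : ℕ))) := by
    rw [← mul_assoc, hss, one_mul]
  rw [e2, ← hperm]
  ring

theorem t : S_CRR := by
  intro K _ n p ω hω i j u u' a b c d hij
  obtain ⟨c0, t, z, h⟩ := hω
  obtain ⟨C, g, hg⟩ := claim ω c0 t z h i j hij u
  obtain ⟨C', g', hg'⟩ := claim ω c0 t z h i j hij u'
  simp only [hg, hg']
  ring

end Pool.Agent.Helper66.RN.CRR
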